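import Pool.Agent.H848R3.RI.Final

/-!
# The rigid input conjecture

Any two nodes of a coupled cell network that are rigidly synchronous or rigidly phase-related on a
hyperbolic periodic orbit of an admissible vector field are input isomorphic.

The definitions `Network`, `InputIso`, `Ph`, `st`, `Admissible`, `Tup`, `tup` are in
`Pool/Agent/H848R3/RI/Net.lean`, `SmAdm` is in `Pool/Agent/H848R3/RI/Bump.lean`, `IsFund` is in
`Pool/Agent/H848R3/RI/Lin.lean`, and `PeriodicOrbit`, `Hyperbolic` are in
`Pool/Agent/H848R3/RI/Hyp.lean`.

Idea of the proof. Suppose that there is no input isomorphism from `c` to `d`. Perturb by bump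
functions with shrinking support around the input tuple of `c` at a time `t`; they act on nodes
input isomorphic to `c` only. The first order responses of the orbit and of its period are bounded
by the time integral of the bump along the orbit, which tends to zero if the orbit of input tuples
spends no positive time at that tuple, while the velocity of `c` at time `t` is changed by a fixed
amount: this contradicts the phase relation with `d`, whose own equation is not perturbed.
Otherwise (after a small generic deformation of the orbit) `c` and all nodes upstream are at rest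
for all times, so `c` and `d` are synchronous, and a dimension count for the subnetwork at rest
shows that the input sets match.
-/

set_option autoImplicit false

open Pool.Agent.H848R3.RI

namespace Pool.Agent.Results.MP_260507_an.RigidInput

/-- Nodes `c` and `d` are phase-related on the curve `x` with phase shift `θ`:
`x_c(t) = x_d(t + θ)` for all `t` (synchronous, if `θ = 0`). -/
def PhaseRelated {N : Network} {V : N.SType → Type} (x : ℝ → Ph N V) (c d : N.Node) (θ : ℝ) :
    Prop :=
  ∀ t, st (x t) c = st (x (t + θ)) d

/-- The phase relation with shift `θ` between `c` and `d` on the `T`-periodic orbit `x` of the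
admissible field `f` is rigid: there is `δ > 0` such that for every smooth admissible `h` with
`‖h‖ < δ`, `‖Dh‖ < δ` everywhere, the relation with shift `θ T' / T` holds on the nearby periodic
orbit of `f + h` (every periodic orbit `x'` of `f + h` of period `T'`, `|T' - T| < δ`, that is
`δ`-close to `x` on `[0, T]`). For `h = 0` this includes that the relation holds on `x`. -/
def Rigid {N : Network} {V : N.SType → Type} [∀ τ, NormedAddCommGroup (V τ)]
    [∀ τ, NormedSpace ℝ (V τ)] (f : Ph N V → Ph N V) (x : ℝ → Ph N V) (T : ℝ)
    (c d : N.Node) (θ : ℝ) : Prop :=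
  ∃ δ > 0, ∀ h : Ph N V → Ph N V, SmAdm h → (∀ z, ‖h z‖ < δ ∧ ‖fderiv ℝ h z‖ < δ) →
    ∀ (x' : ℝ → Ph N V) (T' : ℝ), PeriodicOrbit (fun z => f z + h z) x' T' → |T' - T| < δ →
      (∀ t ∈ Set.Icc 0 T, ‖x' t - x t‖ < δ) → PhaseRelated x' c d (θ * (T' / T))

/-- Nodes `c` and `d` are input isomorphic: for every arrow type, `I(c)` and `I(d)` contain equally
many arrows of that type. -/
def InputIsomorphic (N : Network) (c d : N.Node) : Prop :=
  ∀ α : N.AType, Nat.card {e : N.In c // N.atype e.1 = α} =
    Nat.card {e : N.In d // N.atype e.1 = α}

/-- **The rigid input conjecture**: for every network, every admissible `C¹` vector field `f` and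
every hyperbolic periodic orbit of `f`, nodes that are rigidly phase-related (in particular,
rigidly synchronous: `θ = 0`) have the same type and are input isomorphic. -/
theorem result (N : Network) (V : N.SType → Type) [∀ τ, NormedAddCommGroup (V τ)]
    [∀ τ, NormedSpace ℝ (V τ)] [∀ τ, FiniteDimensional ℝ (V τ)] [∀ τ, Nontrivial (V τ)]
    (f : Ph N V → Ph N V) (hf : Admissible f) (x : ℝ → Ph N V) (T : ℝ)
    (hx : PeriodicOrbit f x T) (hh : Hyperbolic f x T) (c d : N.Node) (θ : ℝ)
    (hr : Rigid f x T c d θ) : N.ntype c = N.ntype d ∧ InputIsomorphic N c d := by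
  obtain ⟨δ, hδ, hrig⟩ := hr
  have hp : PerOrb f x T := hx.perOrb hf.smooth
  obtain ⟨β⟩ := rigid_input hf hp (hh.nDeg hf.smooth hp) hδ c d (θ / T)
    (fun h x' T' h1 h2 h3 h4 h5 t => by
      have h6 := hrig h h1 h2 x' T' h3.periodicOrbit h4 h5 t
      have h7 : t + θ / T * T' = t + θ * (T' / T) := by ring
      rw [h7]
      exact h6)
  refine ⟨β.node, fun α => Nat.card_congr ?_⟩
  exact
    { toFun := fun e => ⟨β.toEquiv e.1, by rw [β.arr]; exact e.2⟩
      invFun := fun e => ⟨β.toEquiv.symm e.1, by
        have h1 := β.arr (β.toEquiv.symm e.1)
        rw [Equiv.apply_symm_apply] at h1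
        rw [← h1]; exact e.2⟩
      left_inv := fun e => by simp
      right_inv := fun e => by simp }

end Pool.Agent.Results.MP_260507_an.RigidInput
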